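import Pool.Agent.Q190.QCMain

/-!
# MP_bff4fe_gt: perpendicular quadrisecting chords and the perimeter

For every plane convex figure `F` and every pair of perpendicular chords `[p₁,q₁]`, `[p₂,q₂]`
quadrisecting its perimeter, `L(F) ≤ 2 (|c₁| + |c₂|)`, with equality only for rectangles.
-/

open MeasureTheory Q190.Quadrisect

namespace Pool.Agent.Results.MP_bff4fe_gt.QuadrisectingChordsPerimeter

theorem result (F : Set Plane) (hF : IsConvexFigure F) (p₁ q₁ p₂ q₂ : Plane)
    (h : Quadrisects F p₁ q₁ p₂ q₂) (hperp : Perpendicular p₁ q₁ p₂ q₂) :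
    perimeter F ≤ ENNReal.ofReal (2 * (dist p₁ q₁ + dist p₂ q₂)) ∧
    (perimeter F = ENNReal.ofReal (2 * (dist p₁ q₁ + dist p₂ q₂)) → IsRectangle F) :=
  Q190.QC.main hF h hperp

end Pool.Agent.Results.MP_bff4fe_gt.QuadrisectingChordsPerimeter
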